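import Mathlib
import Pool.Agent.Lib.P23F.Main

/-!
# Four point subsets of `ℓ₂` in infinite-dimensional normed spaces
-/

set_option autoImplicit false

namespace Pool.Agent.Results.MP_23d34e_an.FourPoints

/-- Every subset of the real Hilbert space `ℓ₂` which consists of four points, no three of them on
a line, embeds isometrically into every infinite-dimensional real normed space. -/
theorem result (X : Type*) [NormedAddCommGroup X] [NormedSpace ℝ X]
    (hX : ¬ FiniteDimensional ℝ X) (A : Set (lp (fun _ : ℕ => ℝ) 2)) (hA : A.ncard = 4)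
    (hc : ∀ a ∈ A, ∀ b ∈ A, ∀ c ∈ A, a ≠ b → a ≠ c → b ≠ c →
      ¬ Collinear ℝ ({a, b, c} : Set (lp (fun _ : ℕ => ℝ) 2))) :
    ∃ f : A → X, Isometry f := by
  haveI : Finite A := Set.finite_of_ncard_pos (by omega)
  have hcard : Nat.card A = 4 := hA
  let e : Fin 4 ≃ A := (Finite.equivFinOfCardEq hcard).symm
  obtain ⟨P, hP⟩ := P23F.four_points hX (fun i => ((e i : A) : lp (fun _ : ℕ => ℝ) 2)) (by
    intro i j k hij hik hjk
    have hinj : ∀ i j : Fin 4, i ≠ j →
        ((e i : A) : lp (fun _ : ℕ => ℝ) 2) ≠ ((e j : A) : lp (fun _ : ℕ => ℝ) 2) := by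
      intro i j hij h
      exact hij (e.injective (Subtype.ext h))
    exact hc _ (e i).2 _ (e j).2 _ (e k).2 (hinj i j hij) (hinj i k hik) (hinj j k hjk))
  refine ⟨fun a => P (e.symm a), Isometry.of_dist_eq fun a b => ?_⟩
  rw [dist_eq_norm, hP, Equiv.apply_symm_apply, Equiv.apply_symm_apply, ← dist_eq_norm]
  rfl

end Pool.Agent.Results.MP_23d34e_an.FourPoints
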