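import Mathlib
import Pool.Agent.Lib.P23d34e.EmbedY

/-!
# Finite subsets of `ℓ₂` in spaces with almost isometric copies of `p`-direct sums
-/

set_option autoImplicit false

open scoped ENNReal

namespace Pool.Agent.Results.MP_23d34e_an.KrivineCase

open Pool.Agent.Lib.P23d34e

/-- Let `X` contain, for all `N` and `ε > 0`, a `(1 + ε)`-isometric copy of the `p`-direct sum of
`N` copies of the normed space `Y`, where `p ∈ [1, ∞]` and one of the following holds: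
`Y ≠ 0` and `p` is not an even integer; `p = 2` and `Y` violates the parallelogram law; `p < ∞` and
for some `x, y ∈ Y` the function `t ↦ ‖x + t y‖ ^ p` is not a polynomial. Then every finite subset
of `ℓ₂` embeds isometrically into `X`. -/
theorem result (p : ℝ≥0∞) [Fact (1 ≤ p)] (Y X : Type*) [NormedAddCommGroup Y] [NormedSpace ℝ Y]
    [NormedAddCommGroup X] [NormedSpace ℝ X]
    (hY : (Nontrivial Y ∧ ∀ k : ℕ, p ≠ 2 * k) ∨
      (p = 2 ∧ ∃ x y : Y, ‖x + y‖ ^ 2 + ‖x - y‖ ^ 2 ≠ 2 * (‖x‖ ^ 2 + ‖y‖ ^ 2)) ∨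
      (p ≠ ∞ ∧ ∃ x y : Y, ¬ ∃ P : Polynomial ℝ, ∀ t : ℝ, ‖x + t • y‖ ^ p.toReal = P.eval t))
    (hX : ∀ (N : ℕ) (ε : ℝ), 0 < ε → ∃ J : PiLp p (fun _ : Fin N => Y) →ₗ[ℝ] X,
      ∀ z, ‖z‖ ≤ ‖J z‖ ∧ ‖J z‖ ≤ (1 + ε) * ‖z‖)
    (A : Set (lp (fun _ : ℕ => ℝ) 2)) (hA : A.Finite) : ∃ f : A → X, Isometry f := by
  have hflex : Flexible p Y := by
    rcases hY with ⟨hY, hp⟩ | ⟨rfl, hY⟩ | hY
    · exact flexible_of_ne_even hp
    · exact flexible_two hY
    · exact Or.inr hY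
  exact exists_isometry (Y := Y) hX hflex A hA

end Pool.Agent.Results.MP_23d34e_an.KrivineCase
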