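import Mathlib
import Pool.Agent.Lib.P23O.OrlFin

/-!
# Finite subsets of `ℓ₂` in spaces containing the Orlicz spaces `ℓ_M^N`
-/

set_option autoImplicit false

namespace Pool.Agent.Results.MP_23d34e_an.OrliczSpaces

open Pool.Agent.Lib.P23O

/-- Let `M` be an Orlicz function (convex, even, `M 0 = 0`, not identically zero) and `X` a real
normed space such that one of the following holds.

* For all `N` there are `e_1, ..., e_N` in `X` with `‖∑ a_i e_i‖ ≤ 1` iff `∑ M(a_i) ≤ 1` (isometric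
  copies of the Orlicz spaces `ℓ_M^N` with the Luxemburg norm).
* `M` is not a polynomial near `0` and for all `N` and `ε > 0` there are such `e_i` with the
  equivalence up to the factor `1 + ε`.
* For all positive weights `w_1, ..., w_N` with sum `1` there are `e_i` in `X` with
  `‖∑ a_i e_i‖ ≤ 1` iff `∑ w_i M(a_i) ≤ 1` (step functions in an Orlicz space over a nonatomic
  probability space).

Then every finite subset of `ℓ₂` embeds isometrically into `X`. -/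
theorem result (M : ℝ → ℝ) (hconv : ConvexOn ℝ Set.univ M) (heven : ∀ t, M (-t) = M t)
    (hzero : M 0 = 0) (hne : ∃ t, M t ≠ 0)
    (X : Type*) [NormedAddCommGroup X] [NormedSpace ℝ X]
    (hX : (∀ N : ℕ, ∃ e : Fin N → X, ∀ a : Fin N → ℝ,
        ‖∑ i, a i • e i‖ ≤ 1 ↔ ∑ i, M (a i) ≤ 1) ∨
      ((¬ ∃ (P : Polynomial ℝ) (δ : ℝ), 0 < δ ∧ ∀ t, |t| ≤ δ → M t = P.eval t) ∧
        ∀ (N : ℕ) (ε : ℝ), 0 < ε → ∃ e : Fin N → X, ∀ a : Fin N → ℝ,
          (∑ i, M (a i) ≤ 1 → ‖∑ i, a i • e i‖ ≤ 1) ∧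
          (‖∑ i, a i • e i‖ ≤ 1 → ∑ i, M (a i / (1 + ε)) ≤ 1)) ∨
      (∀ (N : ℕ) (w : Fin N → ℝ), (∀ i, 0 < w i) → ∑ i, w i = 1 →
        ∃ e : Fin N → X, ∀ a : Fin N → ℝ,
          ‖∑ i, a i • e i‖ ≤ 1 ↔ ∑ i, w i * M (a i) ≤ 1))
    (A : Set (lp (fun _ : ℕ => ℝ) 2)) (hA : A.Finite) : ∃ f : A → X, Isometry f :=
  main ⟨hconv, heven, hzero⟩ hne hX A hA

end Pool.Agent.Results.MP_23d34e_an.OrliczSpaces
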